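import Mathlib

set_option autoImplicit false
open Filter Topology

namespace Pool.Agent.Results.MP_714461_an.NowhereGateaux

abbrev H := lp (fun _ : ℝ => ℝ) 2

noncomputable def cw (g : ℝ → ℝ) (h0 : g 0 = 0) (hg : ∀ s t, |g s - g t| ≤ 3 * |s - t|) (x : H) :
    H :=
  ⟨fun i => g (x i), (lp.memℓp ((3 : ℝ) • x)).mono' fun i => by
    have := hg (x i) 0
    rw [h0, sub_zero, sub_zero] at this
    simpa using this⟩

lemma cw_lip (g : ℝ → ℝ) (h0 : g 0 = 0) (hg : ∀ s t, |g s - g t| ≤ 3 * |s - t|) :
    LipschitzWith 3 (cw g h0 hg) := by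
  refine LipschitzWith.of_dist_le_mul fun x y => ?_
  rw [dist_eq_norm, dist_eq_norm]
  refine (lp.norm_mono (by norm_num) (y := (3 : ℝ) • (x - y)) fun i => ?_).trans ?_
  · simpa [cw] using hg (x i) (y i)
  · simp [norm_smul]

noncomputable def g1 (t : ℝ) : ℝ := 2 * t + |t|
noncomputable def g2 (t : ℝ) : ℝ := (2 * t - |t|) / 3

lemma l1 (s t : ℝ) : |g1 s - g1 t| ≤ 3 * |s - t| := by
  have a := abs_le.1 (abs_abs_sub_abs_le_abs_sub s t)
  have b := abs_le.1 (le_refl |s - t|)
  unfold g1
  rw [abs_le]; constructor <;> linarith [a.1, a.2, b.1, b.2]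

lemma l2 (s t : ℝ) : |g2 s - g2 t| ≤ 3 * |s - t| := by
  have a := abs_le.1 (abs_abs_sub_abs_le_abs_sub s t)
  have b := abs_le.1 (le_refl |s - t|)
  unfold g2
  rw [abs_le]; constructor <;> linarith [a.1, a.2, b.1, b.2, abs_nonneg (s - t)]

lemma i1 (t : ℝ) : g2 (g1 t) = t := by
  unfold g1 g2
  rcases le_total 0 t with h | h
  · rw [abs_of_nonneg h, abs_of_nonneg (by linarith)]; ring
  · rw [abs_of_nonpos h, abs_of_nonpos (by linarith)]; ring

lemma i2 (t : ℝ) : g1 (g2 t) = t := by
  unfold g1 g2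
  rcases le_total 0 t with h | h
  · rw [abs_of_nonneg h, abs_of_nonneg (by linarith)]; ring
  · rw [abs_of_nonpos h, abs_of_nonpos (by linarith)]; ring

noncomputable def φ : H ≃ H where
  toFun := cw g1 (by simp [g1]) l1
  invFun := cw g2 (by simp [g2]) l2
  left_inv x := lp.ext (funext fun i => i1 (x i))
  right_inv x := lp.ext (funext fun i => i2 (x i))

/-- A bi-Lipschitz bijection of a nonseparable Hilbert space with no point of Gateaux
differentiability. -/
theorem result :
    ∃ (X : Type) (_ : NormedAddCommGroup X) (_ : NormedSpace ℝ X) (_ : CompleteSpace X),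
      ¬ TopologicalSpace.SeparableSpace X ∧ UniformConvexSpace X ∧
      Function.Surjective (NormedSpace.inclusionInDoubleDual ℝ X) ∧
      ∃ φ : X ≃ X, (∃ K, LipschitzWith K φ) ∧ (∃ K, LipschitzWith K φ.symm) ∧
        ∀ x₀ : X, ¬ ∃ T : X →L[ℝ] X, ∀ h : X,
          Tendsto (fun t : ℝ => t⁻¹ • (φ (x₀ + t • h) - φ x₀)) (𝓝[≠] 0) (𝓝 (T h)) := by
  refine ⟨H, inferInstance, inferInstance, inferInstance, fun hs => ?_, inferInstance,
    fun Φ => ?_, φ, ⟨3, cw_lip g1 (by simp [g1]) l1⟩, ⟨3, cw_lip g2 (by simp [g2]) l2⟩, fun x₀ => ?_⟩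
  · have : Countable ℝ := Pairwise.countable_of_isOpen_disjoint
      (s := fun i : ℝ => Metric.ball (lp.single 2 i (1 : ℝ) : H) (1 / 2))
      (fun i j hij => Metric.ball_disjoint_ball (by
        have := lp.norm_apply_le_norm (p := 2) (by norm_num)
          ((lp.single 2 i (1 : ℝ) : H) - lp.single 2 j 1) i
        rw [lp.coeFn_sub, Pi.sub_apply, lp.single_apply_self, lp.single_apply_ne _ _ _ hij] at this
        rw [dist_eq_norm]
        norm_num at this ⊢
        exact this))
      (fun _ => Metric.isOpen_ball) fun _ => Metric.nonempty_ball.2 (by norm_num)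
    exact not_countable this
  · obtain ⟨x, hx⟩ := (InnerProductSpace.toDual ℝ H).surjective (Φ.comp (innerSL ℝ))
    refine ⟨x, ContinuousLinearMap.ext fun f => ?_⟩
    obtain ⟨v, rfl⟩ := (InnerProductSpace.toDual ℝ H).surjective f
    have := congrArg (fun g : StrongDual ℝ H => g v) hx
    rw [NormedSpace.dual_def, InnerProductSpace.toDual_apply_apply, real_inner_comm]
    exact this
  · rintro ⟨T, hT⟩
    have hs : (Function.support fun i => ‖x₀ i‖ ^ (2 : ENNReal).toReal).Countable :=
      ((lp.memℓp x₀).summable (by norm_num)).countable_support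
    obtain ⟨i, hi⟩ : ∃ i, x₀ i = 0 := by
      by_contra hn
      push Not at hn
      refine Set.not_countable_univ (hs.mono fun i _ => ?_)
      simpa using hn i
    have c : Continuous fun x : H => x i := (lp.lipschitzWith_one_eval 2 i).continuous
    have h1 := (c.tendsto _).comp (hT (lp.single 2 i 1))
    have e : ∀ t : ℝ, (t⁻¹ • (φ (x₀ + t • lp.single 2 i 1) - φ x₀) : H) i = t⁻¹ * g1 t := fun t => by
      rw [lp.coeFn_smul, Pi.smul_apply, lp.coeFn_sub, Pi.sub_apply, smul_eq_mul]
      change t⁻¹ * (g1 ((x₀ + t • lp.single 2 i 1 : H) i) - g1 (x₀ i)) = _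
      rw [lp.coeFn_add, Pi.add_apply, lp.coeFn_smul, Pi.smul_apply, lp.single_apply_self, hi]
      simp [g1]
    have a : (T (lp.single 2 i 1)) i = 3 := by
      refine tendsto_nhds_unique (h1.mono_left (nhdsGT_le_nhdsNE 0)) (tendsto_const_nhds.congr' ?_)
      filter_upwards [self_mem_nhdsWithin] with t ht
      have ht' : 0 < t := ht
      rw [Function.comp_apply, e, g1, abs_of_pos ht']
      field_simp
      norm_num
    have b : (T (lp.single 2 i 1)) i = 1 := by
      refine tendsto_nhds_unique (h1.mono_left (nhdsLT_le_nhdsNE 0)) (tendsto_const_nhds.congr' ?_)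
      filter_upwards [self_mem_nhdsWithin] with t ht
      have ht' : t < 0 := ht
      have := ht'.ne
      rw [Function.comp_apply, e, g1, abs_of_neg ht']
      field_simp
      norm_num
    linarith

end Pool.Agent.Results.MP_714461_an.NowhereGateaux
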